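import Mathlib

/-!
# MP_196a0c_al, Q1: inverting an element at a proper level of a Green functor need not be flat

We take `G = C_2` (the cyclic group of order two) and `H = 1`.  A Mackey functor for `C_2` is
given by its values `e = M(G/e)` and `G = M(G/G)`, the action `act` of the generator on
`M(G/e)`, the restriction `res` and the transfer `tr`.
-/

namespace Pool.Agent.Results.MP_196a0c_al.LocalizationNotFlat

/-- A commutative Green functor for `C_2`. -/
structure Green where
  e : Type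
  G : Type
  [re : CommRing e]
  [rG : CommRing G]
  act : e →+* e
  res : G →+* e
  tr : e →+ G
  act_act : ∀ x, act (act x) = x
  act_res : ∀ y, act (res y) = res y
  tr_act : ∀ x, tr (act x) = tr x
  /-- the double coset formula -/
  res_tr : ∀ x, res (tr x) = x + act x
  /-- Frobenius reciprocity -/
  frob : ∀ a b, tr (res a * b) = a * tr b

attribute [instance] Green.re Green.rG

/-- Homomorphisms of Green functors. -/
structure GreenHom (R S : Green) where
  e : R.e →+* S.e
  G : R.G →+* S.G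
  act : ∀ x, e (R.act x) = S.act (e x)
  res : ∀ y, e (R.res y) = S.res (G y)
  tr : ∀ x, G (R.tr x) = S.tr (e x)

/-- A Mackey functor for `C_2`. -/
structure Mack where
  e : Type
  G : Type
  [ae : AddCommGroup e]
  [aG : AddCommGroup G]
  act : e → e
  res : G → e
  tr : e → G
  act_add : ∀ x y, act (x + y) = act x + act y
  res_add : ∀ x y, res (x + y) = res x + res y
  tr_add : ∀ x y, tr (x + y) = tr x + tr y
  act_act : ∀ x, act (act x) = x
  act_res : ∀ y, act (res y) = res y
  tr_act : ∀ x, tr (act x) = tr x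
  /-- the double coset formula -/
  res_tr : ∀ x, res (tr x) = x + act x

attribute [instance] Mack.ae Mack.aG

/-- An `R`-module: a Mackey functor with an action of the Green functor `R`. -/
structure GMod (R : Green) extends Mack where
  [me : Module R.e e]
  [mG : Module R.G G]
  act_smul : ∀ (r : R.e) (x : e), act (r • x) = R.act r • act x
  res_smul : ∀ (r : R.G) (y : G), res (r • y) = R.res r • res y
  /-- Frobenius reciprocity for the action -/
  frob₁ : ∀ (r : R.G) (x : e), tr (R.res r • x) = r • tr x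
  frob₂ : ∀ (r : R.e) (y : G), tr (r • res y) = R.tr r • y

attribute [instance] GMod.me GMod.mG

variable {R : Green}

/-- Homomorphisms of `R`-modules. -/
structure GModHom (M N : GMod R) where
  e : M.e → N.e
  G : M.G → N.G
  e_add : ∀ x y, e (x + y) = e x + e y
  G_add : ∀ x y, G (x + y) = G x + G y
  e_smul : ∀ (r : R.e) x, e (r • x) = r • e x
  G_smul : ∀ (r : R.G) x, G (r • x) = r • G x
  act : ∀ x, e (M.act x) = N.act (e x)
  res : ∀ y, e (M.res y) = N.res (G y)
  tr : ∀ x, G (M.tr x) = N.tr (e x)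

/-- An `R`-bilinear pairing `M, N → P` (these are the `R`-module homomorphisms
`M ⊠_R N → P`). -/
structure Pairing (M N P : GMod R) where
  e : M.e → N.e → P.e
  G : M.G → N.G → P.G
  e_add₁ : ∀ x x' y, e (x + x') y = e x y + e x' y
  e_add₂ : ∀ x y y', e x (y + y') = e x y + e x y'
  G_add₁ : ∀ x x' y, G (x + x') y = G x y + G x' y
  G_add₂ : ∀ x y y', G x (y + y') = G x y + G x y'
  e_smul₁ : ∀ (r : R.e) x y, e (r • x) y = r • e x y
  e_smul₂ : ∀ (r : R.e) x y, e x (r • y) = r • e x y
  G_smul₁ : ∀ (r : R.G) x y, G (r • x) y = r • G x y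
  G_smul₂ : ∀ (r : R.G) x y, G x (r • y) = r • G x y
  act : ∀ x y, P.act (e x y) = e (M.act x) (N.act y)
  res : ∀ x y, P.res (G x y) = e (M.res x) (N.res y)
  frob₁ : ∀ x y, G x (N.tr y) = P.tr (e (M.res x) y)
  frob₂ : ∀ x y, G (M.tr x) y = P.tr (e x (N.res y))

/-- `P`, with the pairing `b : M, N → P`, is the box product `M ⊠_R N`: it is the universal
pairing. -/
def IsBox {M N P : GMod R} (b : Pairing M N P) : Prop :=
  ∀ (Q : GMod R) (q : Pairing M N Q), ∃! f : GModHom P Q,
    (∀ x y, f.e (b.e x y) = q.e x y) ∧ (∀ x y, f.G (b.G x y) = q.G x y)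

/-- Injectivity of a homomorphism (at both levels). -/
def GModHom.Inj {M N : GMod R} (f : GModHom M N) : Prop :=
  Function.Injective f.e ∧ Function.Injective f.G

/-- `M` is flat: `M ⊠_R (-)` preserves injections (it is always right exact), i.e. for
every injection `i : N → N'` the induced map `M ⊠_R N → M ⊠_R N'` is injective. -/
def Flat (M : GMod R) : Prop :=
  ∀ (N N' P P' : GMod R) (b : Pairing M N P) (b' : Pairing M N' P') (i : GModHom N N')
    (f : GModHom P P'), IsBox b → IsBox b' → i.Inj →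
    (∀ x y, f.e (b.e x y) = b'.e x (i.e y)) → (∀ x y, f.G (b.G x y) = b'.G x (i.G y)) → f.Inj

/-- A commutative `R`-algebra `φ : R → S`, regarded as an `R`-module. -/
def algMod {S : Green} (φ : GreenHom R S) : GMod R :=
  letI : Module R.e S.e := Module.compHom S.e φ.e
  letI : Module R.G S.G := Module.compHom S.G φ.G
  { e := S.e
    G := S.G
    act := S.act
    res := S.res
    tr := S.tr
    act_add := map_add S.act
    res_add := map_add S.res
    tr_add := map_add S.tr
    act_act := S.act_act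
    act_res := S.act_res
    tr_act := S.tr_act
    res_tr := S.res_tr
    act_smul := by
      intro r x
      show S.act (φ.e r * x) = φ.e (R.act r) * S.act x
      rw [map_mul, φ.act]
    res_smul := by
      intro r y
      show S.res (φ.G r * y) = φ.e (R.res r) * S.res y
      rw [map_mul, φ.res]
    frob₁ := by
      intro r x
      show S.tr (φ.e (R.res r) * x) = φ.G r * S.tr x
      rw [φ.res, S.frob]
    frob₂ := by
      intro r y
      show S.tr (φ.e r * S.res y) = φ.G (R.tr r) * y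
      rw [mul_comm, S.frob, φ.tr, mul_comm] }

/-- `φ : R → S` is the localization `R[b⁻¹]`, `b ∈ R(G/e)`: the image of `b` in `S(G/e)` is a
unit, and `S` is the initial commutative `R`-algebra with this property. -/
def IsLoc (b : R.e) {S : Green} (φ : GreenHom R S) : Prop :=
  IsUnit (φ.e b) ∧ ∀ (T : Green) (ψ : GreenHom R T), IsUnit (ψ.e b) →
    ∃! χ : GreenHom S T, (∀ x, χ.e (φ.e x) = ψ.e x) ∧ (∀ y, χ.G (φ.G y) = ψ.G y)

/-! ### The example -/

/-- `A(G/G) = {(a, n) ∈ ℤ × ℤ : a ≡ n mod 2}` -/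
def AG : Subring (ℤ × ℤ) where
  carrier := {p | (2 : ℤ) ∣ p.1 - p.2}
  mul_mem' := by
    rintro ⟨a, n⟩ ⟨b, m⟩ ⟨k, hk⟩ ⟨l, hl⟩
    refine ⟨k * b + n * l, ?_⟩
    simp only at hk hl
    show a * b - n * m = _
    linear_combination b * hk + n * hl
  one_mem' := by simp
  add_mem' := by
    rintro ⟨a, n⟩ ⟨b, m⟩ ⟨k, hk⟩ ⟨l, hl⟩
    refine ⟨k + l, ?_⟩
    simp only at hk hl
    show a + b - (n + m) = _
    linear_combination hk + hl
  zero_mem' := by simp
  neg_mem' := by
    rintro ⟨a, n⟩ ⟨k, hk⟩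
    refine ⟨-k, ?_⟩
    simp only at hk
    show -a - -n = _
    linear_combination -hk

/-- The transfer of the Burnside Green functor of `C_2`: `a ↦ (2 a, 0)`. -/
def trA : ℤ →+ AG where
  toFun := fun a => ⟨(2 * a, 0), ⟨a, by simp⟩⟩
  map_zero' := by ext <;> simp
  map_add' := by intro a b; ext <;> simp [mul_add]

/-- The Burnside Green functor of `C_2` (in terms of marks). -/
def burnside : Green where
  e := ℤ
  G := AG
  act := RingHom.id ℤ
  res := (RingHom.fst ℤ ℤ).comp AG.subtype
  tr := trA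
  act_act := fun _ => rfl
  act_res := fun _ => rfl
  tr_act := fun _ => rfl
  res_tr := fun x => by show 2 * x = x + x; ring
  frob := by
    rintro ⟨⟨a, n⟩, h⟩ b
    ext
    · show 2 * (a * b) = a * (2 * b); ring
    · show (0 : ℤ) = n * 0; simp

/-- `ℤ[1/2]` -/
abbrev L := Localization.Away (2 : ℤ)

/-- The transfer `ℤ[1/2] → ℤ[1/2] × ℤ`, `a ↦ (2 a, 0)`. -/
noncomputable def trS : L →+ L × ℤ where
  toFun := fun a => (2 * a, 0)
  map_zero' := by ext <;> simp
  map_add' := by intro a b; ext <;> simp [mul_add]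

/-- The localization: `S(G/e) = ℤ[1/2]`, `S(G/G) = ℤ[1/2] × ℤ`. -/
noncomputable def S : Green where
  e := L
  G := L × ℤ
  act := RingHom.id L
  res := RingHom.fst L ℤ
  tr := trS
  act_act := fun _ => rfl
  act_res := fun _ => rfl
  tr_act := fun _ => rfl
  res_tr := fun x => by show 2 * x = x + x; ring
  frob := by
    rintro ⟨a, n⟩ b
    ext
    · show 2 * (a * b) = a * (2 * b); ring
    · show (0 : ℤ) = n * 0; simp

/-- The map `A → S`. -/
noncomputable def phi : GreenHom burnside S where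
  e := algebraMap ℤ L
  G := (RingHom.prodMap (algebraMap ℤ L) (RingHom.id ℤ)).comp AG.subtype
  act := fun _ => rfl
  res := fun _ => rfl
  tr := fun x => by
    apply Prod.ext
    · show algebraMap ℤ L ((2 : ℤ) * (show ℤ from x)) = 2 * algebraMap ℤ L (show ℤ from x)
      rw [map_mul]; simp
    · rfl

theorem isUnit_two : IsUnit (2 : L) := by
  have := IsLocalization.Away.algebraMap_isUnit (S := L) (2 : ℤ)
  simpa using this

theorem GreenHom.ext' {R S : Green} {f g : GreenHom R S} (he : ∀ x, f.e x = g.e x)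
    (hG : ∀ y, f.G y = g.G y) : f = g := by
  obtain ⟨fe, fG, _, _, _⟩ := f
  obtain ⟨ge, gG, _, _, _⟩ := g
  obtain rfl : fe = ge := RingHom.ext he
  obtain rfl : fG = gG := RingHom.ext hG
  rfl

theorem GModHom.ext' {M N : GMod R} {f g : GModHom M N} (he : ∀ x, f.e x = g.e x)
    (hG : ∀ y, f.G y = g.G y) : f = g := by
  obtain ⟨fe, fG, _, _, _, _, _, _, _⟩ := f
  obtain ⟨ge, gG, _, _, _, _, _, _, _⟩ := g
  obtain rfl : fe = ge := funext he
  obtain rfl : fG = gG := funext hG
  rfl

/-- a ring homomorphism out of `ℤ[1/2]` is unique -/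
theorem L_hom_unique {A : Type} [CommRing A] (f g : L →+* A) (x : L) : f x = g x := by
  have : f = g := by
    apply IsLocalization.ringHom_ext (Submonoid.powers (2 : ℤ))
    exact RingHom.ext_int _ _
  rw [this]

theorem loc_aux₁ (T : Green) (ξe : L →+* T.e) (ξG : L × ℤ →+* T.G)
    (a3 : ∀ x, ξG (trS x) = T.tr (ξe x)) (h : T.e) (hh : 2 * h = 1) (a : L) (n : ℤ) :
    ξG (a, n) = T.tr (ξe a * h) + (n : T.G) * (1 - T.tr h) := by
  obtain ⟨w, hw⟩ : ∃ w : L, 2 * w = 1 := by
    obtain ⟨u, hu⟩ := isUnit_two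
    exact ⟨↑u⁻¹, by rw [← hu]; simp⟩
  have hχw : ξe w = h := by
    have : 2 * ξe w = 1 := by
      have := congrArg ξe hw
      rwa [map_mul, map_ofNat, map_one] at this
    calc ξe w = (2 * h) * ξe w := by rw [hh, one_mul]
      _ = h * (2 * ξe w) := by ring
      _ = h := by rw [this, mul_one]
  have hdec : ((a, n) : L × ℤ) = trS (a * w) + ((n : ℤ) : L × ℤ) * (1 - trS w) := by
    apply Prod.ext
    · show a = 2 * (a * w) + (((n : ℤ) : L × ℤ) * (1 - (2 * w, 0))).1
      rw [Prod.fst_mul, Prod.fst_sub]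
      simp only [hw, Prod.fst_one, sub_self, mul_zero, add_zero]
      calc a = a * (2 * w) := by rw [hw, mul_one]
        _ = 2 * (a * w) := by ring
    · show n = 0 + (((n : ℤ) : L × ℤ) * (1 - (2 * w, 0))).2
      rw [Prod.snd_mul, Prod.snd_sub]
      simp
  rw [hdec, map_add, map_mul ξG, map_sub, map_one, a3, a3, map_mul ξe, hχw, map_intCast]

theorem loc_aux₂ (T : Green) (ψe : ℤ →+* T.e) (ψG : AG →+* T.G)
    (a3 : ∀ x, ψG (trA x) = T.tr (ψe x)) (a n k : ℤ) (hk : a - n = 2 * k) :
    ψG ⟨(a, n), ⟨k, hk⟩⟩ = T.tr (k : T.e) + (n : T.G) := by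
  have e2 : (⟨(a, n), ⟨k, hk⟩⟩ : AG) = trA k + ((n : ℤ) : AG) := by
    apply Subtype.ext
    apply Prod.ext
    · show a = 2 * k + (((n : ℤ) : AG) : ℤ × ℤ).1
      have : (((n : ℤ) : AG) : ℤ × ℤ).1 = n := by simp
      rw [this]; omega
    · show n = 0 + (((n : ℤ) : AG) : ℤ × ℤ).2
      have : (((n : ℤ) : AG) : ℤ × ℤ).2 = n := by simp
      rw [this]; omega
  rw [e2, map_add, a3, map_intCast, ← map_intCast ψe k]
  simp

theorem isLoc_phi : IsLoc (R := burnside) (2 : ℤ) phi := by
  refine ⟨?_, ?_⟩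
  · show IsUnit (algebraMap ℤ L 2)
    exact IsLocalization.Away.algebraMap_isUnit (S := L) (2 : ℤ)
  · intro T ψ hψ
    have h2e : ψ.e (2 : ℤ) = (2 : T.e) := map_ofNat ψ.e 2
    have hu : IsUnit (2 : T.e) := by rw [← h2e]; exact hψ
    obtain ⟨h, hh⟩ : ∃ h : T.e, 2 * h = 1 := by
      obtain ⟨u, hu⟩ := hu
      exact ⟨↑u⁻¹, by rw [← hu]; simp⟩
    have hunit' : IsUnit ((Int.castRingHom T.e) (2 : ℤ)) := by simpa using hu
    let χe : L →+* T.e := IsLocalization.Away.lift (2 : ℤ) hunit'
    have hact : ∀ x, T.act (χe x) = χe x := fun x => L_hom_unique (T.act.comp χe) χe x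
    have hacth : T.act h = h := by
      have h1 : 2 * T.act h = 1 := by
        have := congrArg T.act hh
        rw [map_mul, map_ofNat, map_one] at this
        exact this
      calc T.act h = (2 * h) * T.act h := by rw [hh, one_mul]
        _ = h * (2 * T.act h) := by ring
        _ = h := by rw [h1, mul_one]
    have hrt : T.res (T.tr h) = 1 := by
      rw [T.res_tr, hacth, ← hh]; ring
    -- multiplication by tr
    have hmul : ∀ a b, T.tr a * T.tr b = T.tr (T.res (T.tr a) * b) := by
      intro a b; rw [T.frob]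
    let g : L × ℤ → T.G := fun p => T.tr (χe p.1 * h) + (p.2 : T.G) * (1 - T.tr h)
    have hresχ : ∀ a : L, T.res (T.tr (χe a * h)) = χe a := by
      intro a
      rw [T.res_tr, map_mul, hact, hacth]
      calc χe a * h + χe a * h = χe a * (2 * h) := by ring
        _ = χe a := by rw [hh, mul_one]
    have hεtr : ∀ x : T.e, T.tr h * T.tr x = T.tr x := by
      intro x
      rw [hmul, hrt, one_mul]
    let χG : L × ℤ →+* T.G :=
      { toFun := g
        map_one' := by
          show T.tr (χe 1 * h) + ((1 : ℤ) : T.G) * (1 - T.tr h) = 1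
          rw [map_one, one_mul]; push_cast; ring
        map_zero' := by
          show T.tr (χe 0 * h) + ((0 : ℤ) : T.G) * (1 - T.tr h) = 0
          rw [map_zero, zero_mul, map_zero]; push_cast; ring
        map_add' := by
          rintro ⟨a, n⟩ ⟨b, m⟩
          show T.tr (χe (a + b) * h) + ((n + m : ℤ) : T.G) * (1 - T.tr h)
            = (T.tr (χe a * h) + (n : T.G) * (1 - T.tr h))
              + (T.tr (χe b * h) + (m : T.G) * (1 - T.tr h))
          rw [map_add, add_mul, map_add]; push_cast; ring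
        map_mul' := by
          rintro ⟨a, n⟩ ⟨b, m⟩
          show T.tr (χe (a * b) * h) + ((n * m : ℤ) : T.G) * (1 - T.tr h)
            = (T.tr (χe a * h) + (n : T.G) * (1 - T.tr h))
              * (T.tr (χe b * h) + (m : T.G) * (1 - T.tr h))
          have h1 : T.tr (χe a * h) * T.tr (χe b * h) = T.tr (χe (a * b) * h) := by
            rw [hmul, hresχ, map_mul χe]; congr 1; ring
          have h2 := hεtr (χe a * h)
          have h3 := hεtr (χe b * h)
          have h4 := hεtr h
          push_cast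
          linear_combination (-1 : T.G) * h1 + (m : T.G) * h2 + (n : T.G) * h3
            - (n : T.G) * (m : T.G) * h4 }
    refine ⟨⟨χe, χG, ?_, ?_, ?_⟩, ⟨?_, ?_⟩, ?_⟩
    · intro x
      exact (hact x).symm
    · rintro ⟨a, n⟩
      show χe a = T.res (T.tr (χe a * h) + (n : T.G) * (1 - T.tr h))
      rw [map_add, hresχ, map_mul, map_sub, hrt]; simp
    · intro (a : L)
      show T.tr (χe (2 * a) * h) + ((0 : ℤ) : T.G) * (1 - T.tr h) = T.tr (χe a)
      have : χe (2 * a) * h = χe a := by
        rw [map_mul χe, map_ofNat]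
        calc 2 * χe a * h = χe a * (2 * h) := by ring
          _ = χe a := by rw [hh, mul_one]
      rw [this]; simp
    · intro x
      show χe (algebraMap ℤ L x) = ψ.e x
      have : (χe.comp (algebraMap ℤ L)) = ψ.e := RingHom.ext_int _ _
      rw [← this]; rfl
    · rintro ⟨⟨a, n⟩, han⟩
      show T.tr (χe (algebraMap ℤ L a) * h) + (n : T.G) * (1 - T.tr h) = ψ.G ⟨(a, n), han⟩
      obtain ⟨k, hk⟩ := han
      simp only at hk
      have e1 : χe (algebraMap ℤ L a) = (a : T.e) := by
        have : (χe.comp (algebraMap ℤ L)) = Int.castRingHom T.e := RingHom.ext_int _ _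
        have h := congrArg (fun f => f a) this
        simpa using h
      have e3 : ψ.G (⟨(a, n), ⟨k, hk⟩⟩ : AG) = T.tr (k : T.e) + (n : T.G) :=
        loc_aux₂ T ψ.e ψ.G ψ.tr a n k hk
      have e4 : T.tr ((n : T.e) * h) = (n : T.G) * T.tr h := by
        have := T.frob (n : T.G) h
        rwa [map_intCast] at this
      erw [e3]
      rw [e1]
      have e5 : (a : T.e) * h = (k : T.e) + (n : T.e) * h := by
        have : a = 2 * k + n := by omega
        rw [this]; push_cast
        calc (2 * (k : T.e) + n) * h = k * (2 * h) + n * h := by ring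
          _ = k + n * h := by rw [hh, mul_one]
      rw [e5, map_add, e4]
      ring
    · rintro ⟨ξe, ξG, a1, a2, a3⟩ ⟨h1, h2⟩
      apply GreenHom.ext'
      · intro x
        exact L_hom_unique _ _ x
      · rintro ⟨a, n⟩
        have hξχ : ∀ x, ξe x = χe x := fun x => L_hom_unique _ _ x
        refine (loc_aux₁ T ξe ξG a3 h hh a n).trans ?_
        show T.tr (ξe a * h) + (n : T.G) * (1 - T.tr h)
          = T.tr (χe a * h) + (n : T.G) * (1 - T.tr h)
        rw [hξχ]

/-- the first projection `A(G/G) → ℤ` -/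
def fstA : AG →+* ℤ := (RingHom.fst ℤ ℤ).comp AG.subtype

/-- the second projection `A(G/G) → ℤ` -/
def sndA : AG →+* ℤ := (RingHom.snd ℤ ℤ).comp AG.subtype

/-- The `A`-module `N = ℤ` (the constant Mackey functor): `res = id`, `tr = 2`. -/
def N : GMod burnside where
  e := ℤ
  G := ℤ
  me := inferInstanceAs (Module ℤ ℤ)
  mG := Module.compHom ℤ fstA
  act := fun x => x
  res := fun x => x
  tr := fun x => 2 * x
  act_add := fun _ _ => rfl
  res_add := fun _ _ => rfl
  tr_add := fun x y => mul_add 2 x y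
  act_act := fun _ => rfl
  act_res := fun _ => rfl
  tr_act := fun _ => rfl
  res_tr := fun x => by show 2 * x = x + x; ring
  act_smul := fun _ _ => rfl
  res_smul := fun _ _ => rfl
  frob₁ := fun (r : AG) (x : ℤ) => by show 2 * (r.1.1 * x) = r.1.1 * (2 * x); ring
  frob₂ := fun (r : ℤ) (x : ℤ) => by show 2 * (r * x) = 2 * r * x; ring

/-- The `A`-module `N' = ℤ*` (the dual constant Mackey functor): `res = 2`, `tr = id`. -/
def N' : GMod burnside where
  e := ℤ
  G := ℤ
  me := inferInstanceAs (Module ℤ ℤ)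
  mG := Module.compHom ℤ fstA
  act := fun x => x
  res := fun x => 2 * x
  tr := fun x => x
  act_add := fun _ _ => rfl
  res_add := fun x y => mul_add 2 x y
  tr_add := fun _ _ => rfl
  act_act := fun _ => rfl
  act_res := fun _ => rfl
  tr_act := fun _ => rfl
  res_tr := fun x => by show 2 * x = x + x; ring
  act_smul := fun _ _ => rfl
  res_smul := fun (r : AG) (x : ℤ) => by show 2 * (r.1.1 * x) = r.1.1 * (2 * x); ring
  frob₁ := fun _ _ => rfl
  frob₂ := fun (r : ℤ) (x : ℤ) => by show r * (2 * x) = 2 * r * x; ring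

/-- The inclusion `N → N'` (multiplication by 2 at level `e`, the identity at level `G`). -/
def iN : GModHom N N' where
  e := fun (x : ℤ) => (2 * x : ℤ)
  G := fun (x : ℤ) => (x : ℤ)
  e_add := fun (x y : ℤ) => mul_add 2 x y
  G_add := fun _ _ => rfl
  e_smul := fun (r : ℤ) (x : ℤ) => by show 2 * (r * x) = r * (2 * x); ring
  G_smul := fun _ _ => rfl
  act := fun _ => rfl
  res := fun _ => rfl
  tr := fun _ => rfl

theorem iN_inj : iN.Inj := by
  refine ⟨?_, ?_⟩
  · intro (x : ℤ) (y : ℤ) (h : (2 : ℤ) * x = 2 * y)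
    show x = y
    omega
  · intro x y h
    exact h

/-- The `A(G/G)`-module structure on `ℤ[1/2]` through the first projection. -/
noncomputable abbrev modL : Module AG L := Module.compHom L fstA

/-- The `A(G/G)`-module structure on `ZMod 2` through the second projection. -/
abbrev modZ : Module AG (ZMod 2) := Module.compHom (ZMod 2) sndA

/-- The `A(G/G)`-module structure on `ℤ[1/2] × ZMod 2`. -/
noncomputable abbrev modLZ : Module AG (L × ZMod 2) :=
  letI := modL
  letI := modZ
  inferInstance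

/-- The box product `S ⊠ N`. -/
noncomputable def P : GMod burnside where
  e := L
  G := L × ZMod 2
  me := inferInstanceAs (Module ℤ L)
  mG := modLZ
  act := fun x => x
  res := fun x => x.1
  tr := fun x => (2 * x, 0)
  act_add := fun _ _ => rfl
  res_add := fun _ _ => rfl
  tr_add := fun x y => by
    apply Prod.ext
    · exact mul_add 2 x y
    · show (0 : ZMod 2) = 0 + 0
      rw [add_zero]
  act_act := fun _ => rfl
  act_res := fun _ => rfl
  tr_act := fun _ => rfl
  res_tr := fun x => by show 2 * x = x + x; ring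
  act_smul := fun _ _ => rfl
  res_smul := fun _ _ => rfl
  frob₁ := fun (r : AG) (x : L) => by
    apply Prod.ext
    · show 2 * (r.1.1 • x) = r.1.1 • (2 * x)
      rw [mul_smul_comm]
    · show (0 : ZMod 2) = r.1.2 • (0 : ZMod 2)
      rw [smul_zero]
  frob₂ := fun (r : ℤ) (x : L × ZMod 2) => by
    apply Prod.ext
    · show 2 * (r • x.1) = (2 * r) • x.1
      rw [zsmul_eq_mul, zsmul_eq_mul]; push_cast; ring
    · show (0 : ZMod 2) = (0 : ℤ) • x.2
      rw [zero_smul]

/-- The box product `S ⊠ N'`. -/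
noncomputable def P' : GMod burnside where
  e := L
  G := L
  me := inferInstanceAs (Module ℤ L)
  mG := modL
  act := fun x => x
  res := fun x => 2 * x
  tr := fun x => x
  act_add := fun _ _ => rfl
  res_add := fun x y => mul_add 2 x y
  tr_add := fun _ _ => rfl
  act_act := fun _ => rfl
  act_res := fun _ => rfl
  tr_act := fun _ => rfl
  res_tr := fun x => by show 2 * x = x + x; ring
  act_smul := fun _ _ => rfl
  res_smul := fun (r : AG) (x : L) => by
    show 2 * (r.1.1 • x) = r.1.1 • (2 * x)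
    rw [mul_smul_comm]
  frob₁ := fun _ _ => rfl
  frob₂ := fun (r : ℤ) (x : L) => by
    show r • (2 * x) = (2 * r) • x
    rw [zsmul_eq_mul, zsmul_eq_mul]; push_cast; ring

/-- `S` as an `A`-module. -/
noncomputable abbrev SM : GMod burnside := algMod phi

/-- The pairing `S, N → P`. -/
noncomputable def b : Pairing SM N P where
  e := fun (l : L) (m : ℤ) => (m • l : L)
  G := fun (x : L × ℤ) (m : ℤ) => ((m • x.1, (m : ZMod 2) * x.2) : L × ZMod 2)
  e_add₁ := fun (l l' : L) (m : ℤ) => zsmul_add l l' m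
  e_add₂ := fun (l : L) (m m' : ℤ) => add_zsmul l m m'
  e_smul₁ := fun (c : ℤ) (l : L) (m : ℤ) => by
    show m • (algebraMap ℤ L c * l) = c • (m • l)
    simp only [zsmul_eq_mul, eq_intCast]; ring
  e_smul₂ := fun (c : ℤ) (l : L) (m : ℤ) => by
    show (c * m) • l = c • (m • l)
    rw [zsmul_eq_mul, zsmul_eq_mul, zsmul_eq_mul]; push_cast; ring
  G_add₁ := fun (x x' : L × ℤ) (m : ℤ) => by
    apply Prod.ext
    · show m • (x.1 + x'.1) = m • x.1 + m • x'.1
      exact zsmul_add _ _ m
    · show (m : ZMod 2) * ((x.2 + x'.2 : ℤ) : ZMod 2) = m * x.2 + m * x'.2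
      push_cast; ring
  G_add₂ := fun (x : L × ℤ) (m m' : ℤ) => by
    apply Prod.ext
    · show (m + m') • x.1 = m • x.1 + m' • x.1
      exact add_zsmul _ m m'
    · show ((m + m' : ℤ) : ZMod 2) * x.2 = m * x.2 + m' * x.2
      push_cast; ring
  G_smul₁ := fun (c : AG) (x : L × ℤ) (m : ℤ) => by
    apply Prod.ext
    · show m • (algebraMap ℤ L c.1.1 * x.1) = c.1.1 • (m • x.1)
      simp only [zsmul_eq_mul, eq_intCast]; ring
    · show (m : ZMod 2) * ((c.1.2 * x.2 : ℤ) : ZMod 2) = c.1.2 • ((m : ZMod 2) * x.2)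
      rw [zsmul_eq_mul]; push_cast; ring
  G_smul₂ := fun (c : AG) (x : L × ℤ) (m : ℤ) => by
    apply Prod.ext
    · show (c.1.1 * m) • x.1 = c.1.1 • (m • x.1)
      rw [zsmul_eq_mul, zsmul_eq_mul, zsmul_eq_mul]; push_cast; ring
    · show ((c.1.1 * m : ℤ) : ZMod 2) * x.2 = c.1.2 • ((m : ZMod 2) * x.2)
      have h : (c.1.1 : ZMod 2) = (c.1.2 : ZMod 2) := by
        have h2 := c.2
        have : ((c.1.1 - c.1.2 : ℤ) : ZMod 2) = 0 := (ZMod.intCast_zmod_eq_zero_iff_dvd _ 2).2 h2
        push_cast at this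
        exact sub_eq_zero.1 this
      rw [zsmul_eq_mul]; push_cast; rw [h]; ring
  act := fun _ _ => rfl
  res := fun _ _ => rfl
  frob₁ := fun (x : L × ℤ) (m : ℤ) => by
    apply Prod.ext
    · show (2 * m) • x.1 = 2 * (m • x.1)
      rw [zsmul_eq_mul, zsmul_eq_mul]; push_cast; ring
    · show ((2 * m : ℤ) : ZMod 2) * x.2 = 0
      push_cast
      have h2 : (2 : ZMod 2) = 0 := rfl
      rw [h2, zero_mul, zero_mul]
  frob₂ := fun (x : L) (m : ℤ) => by
    apply Prod.ext
    · show m • (2 * x) = 2 * (m • x)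
      rw [mul_smul_comm]
    · show (m : ZMod 2) * ((0 : ℤ) : ZMod 2) = 0
      simp

/-- The pairing `S, N' → P'`. -/
noncomputable def b' : Pairing SM N' P' where
  e := fun (l : L) (m : ℤ) => (m • l : L)
  G := fun (x : L × ℤ) (m : ℤ) => (m • x.1 : L)
  e_add₁ := fun (l l' : L) (m : ℤ) => zsmul_add l l' m
  e_add₂ := fun (l : L) (m m' : ℤ) => add_zsmul l m m'
  e_smul₁ := fun (c : ℤ) (l : L) (m : ℤ) => by
    show m • (algebraMap ℤ L c * l) = c • (m • l)
    simp only [zsmul_eq_mul, eq_intCast]; ring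
  e_smul₂ := fun (c : ℤ) (l : L) (m : ℤ) => by
    show (c * m) • l = c • (m • l)
    rw [zsmul_eq_mul, zsmul_eq_mul, zsmul_eq_mul]; push_cast; ring
  G_add₁ := fun (x x' : L × ℤ) (m : ℤ) => zsmul_add x.1 x'.1 m
  G_add₂ := fun (x : L × ℤ) (m m' : ℤ) => add_zsmul x.1 m m'
  G_smul₁ := fun (c : AG) (x : L × ℤ) (m : ℤ) => by
    show m • (algebraMap ℤ L c.1.1 * x.1) = c.1.1 • (m • x.1)
    simp only [zsmul_eq_mul, eq_intCast]; ring
  G_smul₂ := fun (c : AG) (x : L × ℤ) (m : ℤ) => by
    show (c.1.1 * m) • x.1 = c.1.1 • (m • x.1)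
    rw [zsmul_eq_mul, zsmul_eq_mul, zsmul_eq_mul]; push_cast; ring
  act := fun _ _ => rfl
  res := fun (x : L × ℤ) (m : ℤ) => by
    show 2 * (m • x.1) = (2 * m) • x.1
    rw [zsmul_eq_mul, zsmul_eq_mul]; push_cast; ring
  frob₁ := fun _ _ => rfl
  frob₂ := fun (x : L) (m : ℤ) => by
    show m • (2 * x) = (2 * m) • x
    rw [zsmul_eq_mul, zsmul_eq_mul]; push_cast; ring

/-- The induced map `P → P'`. -/
noncomputable def fP : GModHom P P' where
  e := fun (x : L) => (2 * x : L)
  G := fun (x : L × ZMod 2) => (x.1 : L)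
  e_add := fun (x y : L) => mul_add 2 x y
  G_add := fun _ _ => rfl
  e_smul := fun (r : ℤ) (x : L) => by
    show 2 * (r • x) = r • (2 * x)
    rw [mul_smul_comm]
  G_smul := fun _ _ => rfl
  act := fun _ => rfl
  res := fun _ => rfl
  tr := fun _ => rfl

theorem fP_not_inj : ¬ fP.Inj := by
  rintro ⟨-, h⟩
  have h1 : ((0, 1) : L × ZMod 2) = ((0, 0) : L × ZMod 2) := by
    apply h
    rfl
  have := congrArg Prod.snd h1
  exact one_ne_zero this

section Universal

variable {K : GMod burnside} {Q : GMod burnside}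

/-- The level-`e` part of a pairing with second argument fixed. -/
noncomputable def qE (q : Pairing SM K Q) (m : K.e) : L →+ Q.e :=
  AddMonoidHom.mk' (fun l => q.e l m) (fun x y => q.e_add₁ x y m)

/-- The level-`G` part of a pairing with second argument fixed. -/
noncomputable def qG (q : Pairing SM K Q) (m : K.G) : L × ℤ →+ Q.G :=
  AddMonoidHom.mk' (fun l => q.G l m) (fun x y => q.G_add₁ x y m)

theorem qE_zsmul (q : Pairing SM K Q) (m : K.e) (l : L) (k : ℤ) :
    qE q (k • m) l = k • qE q m l :=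
  map_zsmul (AddMonoidHom.mk' (fun m => q.e l m) (fun x y => q.e_add₂ l x y)) k m

theorem qG_zsmul (q : Pairing SM K Q) (m : K.G) (l : L × ℤ) (k : ℤ) :
    qG q (k • m) l = k • qG q m l :=
  map_zsmul (AddMonoidHom.mk' (fun m => q.G l m) (fun x y => q.G_add₂ l x y)) k m

/-- the identity `ℤ → A(G/e)` -/
def toE (c : ℤ) : burnside.e := c

/-- the identity `AG → A(G/G)` -/
def toG (c : AG) : burnside.G := c

theorem qE_smul (q : Pairing SM K Q) (m : K.e) (c : ℤ) (l : L) :
    qE q m ((c : L) * l) = toE c • qE q m l := by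
  have h3 : (c : L) = algebraMap ℤ L c := by simp
  rw [h3]
  exact q.e_smul₁ (toE c) l m

theorem qG_smul (q : Pairing SM K Q) (m : K.G) (c : AG) (l : L × ℤ) :
    qG q m ((c.1.1 : L) * l.1, c.1.2 * l.2) = toG c • qG q m l := by
  have h3 : ((c.1.1 : ℤ) : L) = algebraMap ℤ L c.1.1 := by simp
  rw [h3]
  exact q.G_smul₁ (toG c) l m

end Universal

theorem isBox_b : IsBox b := by
  intro Q q
  have hQtr : Q.tr 0 = 0 := map_zero (AddMonoidHom.mk' Q.tr Q.tr_add)
  -- the second generator is killed by 2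
  have hq : ∀ k : ℤ, qG q (1 : ℤ) ((0 : L), k) = k • qG q (1 : ℤ) ((0 : L), (1 : ℤ)) := by
    intro k
    rw [← map_zsmul]
    congr 1
    apply Prod.ext
    · show (0 : L) = k • (0 : L)
      simp
    · show k = k • (1 : ℤ)
      simp
  have h2 : (2 : ℤ) • qG q (1 : ℤ) ((0 : L), (1 : ℤ)) = 0 := by
    have h1 := q.frob₁ ((0 : L), (1 : ℤ)) (1 : ℤ)
    have h3 : q.e (SM.res ((0 : L), (1 : ℤ))) (1 : ℤ) = 0 := map_zero (qE q (1 : ℤ))
    have h4 : qG q ((2 : ℤ) • (1 : ℤ)) ((0 : L), (1 : ℤ)) = 0 := by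
      refine Eq.trans ?_ (h1.trans ?_)
      · rfl
      · rw [h3]; exact hQtr
    rw [← h4]
    exact (qG_zsmul q (1 : ℤ) _ 2).symm
  let B : ZMod 2 →+ Q.G := ZMod.lift 2 ⟨(zmultiplesHom Q.G) (qG q (1 : ℤ) ((0 : L), (1 : ℤ))), by
    show ((2 : ℕ) : ℤ) • qG q (1 : ℤ) ((0 : L), (1 : ℤ)) = 0
    exact h2⟩
  have hB : ∀ k : ℤ, B (k : ZMod 2) = qG q (1 : ℤ) ((0 : L), k) := by
    intro k
    rw [hq]
    show ZMod.lift 2 _ (k : ZMod 2) = _
    rw [ZMod.lift_coe]
    rfl
  let F : L × ZMod 2 →+ Q.G := ((qG q (1 : ℤ)).comp (AddMonoidHom.inl L ℤ)).coprod B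
  have hF : ∀ (l : L) (k : ℤ), F (l, (k : ZMod 2)) = qG q (1 : ℤ) (l, k) := by
    intro l k
    show qG q (1 : ℤ) (l, 0) + B (k : ZMod 2) = _
    rw [hB, ← map_add]
    simp
  let f : GModHom P Q :=
    { e := fun (l : L) => qE q (1 : ℤ) l
      G := fun (x : L × ZMod 2) => F x
      e_add := fun (x y : L) => map_add (qE q (1 : ℤ)) x y
      G_add := fun (x y : L × ZMod 2) => map_add F x y
      e_smul := fun (c : ℤ) (x : L) => by
        show qE q (1 : ℤ) (c • x) = _
        rw [zsmul_eq_mul]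
        exact qE_smul q (1 : ℤ) c x
      G_smul := fun (c : AG) (x : L × ZMod 2) => by
        obtain ⟨l, z⟩ := x
        obtain ⟨k, rfl⟩ := ZMod.intCast_surjective z
        show F (c.1.1 • l, c.1.2 • (k : ZMod 2)) = toG c • F (l, (k : ZMod 2))
        have h1 : c.1.2 • (k : ZMod 2) = ((c.1.2 * k : ℤ) : ZMod 2) := by
          rw [zsmul_eq_mul]; push_cast; ring
        rw [h1, hF, hF, zsmul_eq_mul, ← qG_smul]
      act := fun (x : L) => by
        show qE q (1 : ℤ) x = Q.act (qE q (1 : ℤ) x)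
        exact (q.act x (1 : ℤ)).symm
      res := fun (x : L × ZMod 2) => by
        obtain ⟨l, z⟩ := x
        obtain ⟨k, rfl⟩ := ZMod.intCast_surjective z
        show qE q (1 : ℤ) l = Q.res (F (l, (k : ZMod 2)))
        rw [hF]
        exact (q.res (l, k) (1 : ℤ)).symm
      tr := fun (x : L) => by
        show F (2 * x, 0) = Q.tr (qE q (1 : ℤ) x)
        have := hF (2 * x) 0
        rw [Int.cast_zero] at this
        rw [this]
        exact q.frob₂ x (1 : ℤ) }
  refine ⟨f, ⟨?_, ?_⟩, ?_⟩
  · intro (x : L) (m : ℤ)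
    show qE q (1 : ℤ) (m • x) = qE q m x
    have h := qE_zsmul q (1 : ℤ) x m
    have h1 : (m • (1 : ℤ) : ℤ) = m := by simp
    rw [map_zsmul]
    refine h.symm.trans ?_
    exact congrArg (fun t => qE q t x) h1
  · intro (x : L × ℤ) (m : ℤ)
    show F (m • x.1, (m : ZMod 2) * x.2) = qG q m x
    have e1 : ((m : ZMod 2) * (x.2 : ZMod 2)) = ((m * x.2 : ℤ) : ZMod 2) := by push_cast; rfl
    rw [e1, hF]
    have h := qG_zsmul q (1 : ℤ) x m
    have h1 : (m • (1 : ℤ) : ℤ) = m := by simp
    have h2 : ((m • x.1, m * x.2) : L × ℤ) = m • x := by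
      apply Prod.ext
      · rfl
      · show m * x.2 = m • x.2
        simp
    rw [h2, map_zsmul]
    refine h.symm.trans ?_
    exact congrArg (fun t => qG q t x) h1
  · rintro g ⟨g1, g2⟩
    apply GModHom.ext'
    · intro (x : L)
      have h := g1 x (1 : ℤ)
      have h1 : (b.e x (1 : ℤ) : L) = x := by
        show (1 : ℤ) • x = x
        simp
      exact (congrArg g.e h1).symm.trans h
    · intro x
      obtain ⟨l, z⟩ := x
      obtain ⟨k, rfl⟩ := ZMod.intCast_surjective z
      have h := g2 (l, k) (1 : ℤ)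
      have h1 : (b.G (l, k) (1 : ℤ) : L × ZMod 2) = (l, (k : ZMod 2)) := by
        apply Prod.ext
        · show (1 : ℤ) • l = l
          simp
        · show ((1 : ℤ) : ZMod 2) * (k : ZMod 2) = k
          simp
      exact (congrArg g.G h1).symm.trans (h.trans (hF l k).symm)

theorem isBox_b' : IsBox b' := by
  intro Q q
  have hQtr : Q.tr 0 = 0 := map_zero (AddMonoidHom.mk' Q.tr Q.tr_add)
  -- the elements `(0, k)` are killed
  have h0 : ∀ k : ℤ, qG q (1 : ℤ) ((0 : L), k) = 0 := by
    intro k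
    have h1 := q.frob₁ ((0 : L), k) (1 : ℤ)
    have h3 : q.e (SM.res ((0 : L), k)) (1 : ℤ) = 0 := map_zero (qE q (1 : ℤ))
    refine Eq.trans ?_ (h1.trans ?_)
    · rfl
    · rw [h3]; exact hQtr
  let F : L →+ Q.G := (qG q (1 : ℤ)).comp (AddMonoidHom.inl L ℤ)
  have hF : ∀ (l : L) (k : ℤ), F l = qG q (1 : ℤ) (l, k) := by
    intro l k
    have : ((l, k) : L × ℤ) = (l, 0) + (0, k) := by simp
    rw [this, map_add, h0, add_zero]
    rfl
  let f : GModHom P' Q :=
    { e := fun (l : L) => qE q (1 : ℤ) l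
      G := fun (x : L) => F x
      e_add := fun (x y : L) => map_add (qE q (1 : ℤ)) x y
      G_add := fun (x y : L) => map_add F x y
      e_smul := fun (c : ℤ) (x : L) => by
        show qE q (1 : ℤ) (c • x) = _
        rw [zsmul_eq_mul]
        exact qE_smul q (1 : ℤ) c x
      G_smul := fun (c : AG) (x : L) => by
        show F (c.1.1 • x) = toG c • F x
        rw [hF _ (c.1.2 * 0), hF x 0, zsmul_eq_mul, ← qG_smul]
      act := fun (x : L) => by
        show qE q (1 : ℤ) x = Q.act (qE q (1 : ℤ) x)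
        exact (q.act x (1 : ℤ)).symm
      res := fun (x : L) => by
        show qE q (1 : ℤ) (2 * x) = Q.res (F x)
        have h1 : Q.res (F x) = qE q ((2 : ℤ) • (1 : ℤ)) x := q.res (x, 0) (1 : ℤ)
        rw [h1]
        have h2 := qE_zsmul q (1 : ℤ) x 2
        have h3 : (2 * x : L) = (2 : ℤ) • x := by rw [zsmul_eq_mul]; norm_num
        rw [h3, map_zsmul]
        exact h2.symm
      tr := fun (x : L) => by
        show F x = Q.tr (qE q (1 : ℤ) x)
        exact q.frob₁ (x, 0) (1 : ℤ) }
  refine ⟨f, ⟨?_, ?_⟩, ?_⟩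
  · intro (x : L) (m : ℤ)
    show qE q (1 : ℤ) (m • x) = qE q m x
    have h := qE_zsmul q (1 : ℤ) x m
    have h1 : (m • (1 : ℤ) : ℤ) = m := by simp
    rw [map_zsmul]
    refine h.symm.trans ?_
    exact congrArg (fun t => qE q t x) h1
  · intro (x : L × ℤ) (m : ℤ)
    show F (m • x.1) = qG q m x
    rw [hF _ (m • x.2)]
    have h := qG_zsmul q (1 : ℤ) x m
    have h1 : (m • (1 : ℤ) : ℤ) = m := by simp
    have h2 : ((m • x.1, m • x.2) : L × ℤ) = m • x := rfl
    rw [h2, map_zsmul]
    refine h.symm.trans ?_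
    exact congrArg (fun t => qG q t x) h1
  · rintro g ⟨g1, g2⟩
    apply GModHom.ext'
    · intro (x : L)
      have h := g1 x (1 : ℤ)
      have h1 : (b'.e x (1 : ℤ) : L) = x := by
        show (1 : ℤ) • x = x
        simp
      exact (congrArg g.e h1).symm.trans h
    · intro (x : L)
      have h := g2 (x, 0) (1 : ℤ)
      have h1 : (b'.G (x, 0) (1 : ℤ) : L) = x := by
        show (1 : ℤ) • x = x
        simp
      exact (congrArg g.G h1).symm.trans h

/-- **Q1 is false.**  For the group `C_2`, the trivial subgroup, the Burnside Green functor `A`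
and `b = 2 ∈ A(C_2/e) = ℤ`, the localization `A[b⁻¹]` is not a flat `A`-module. -/
theorem localization_not_flat : IsLoc (R := burnside) (2 : ℤ) phi ∧ ¬ Flat (algMod phi) := by
  refine ⟨isLoc_phi, fun h => ?_⟩
  refine fP_not_inj (h N N' P P' b b' iN fP isBox_b isBox_b' iN_inj ?_ ?_)
  · intro (x : L) (m : ℤ)
    show 2 * (m • x) = (2 * m) • x
    rw [zsmul_eq_mul, zsmul_eq_mul]; push_cast; ring
  · intro (x : L × ℤ) (m : ℤ)
    rfl

/-- There are a commutative Green functor `R` for `C_2` and `b ∈ R(C_2/e)` whose localization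
`R[b⁻¹]` (the initial commutative `R`-algebra in which `b` becomes a unit) is not flat over
`R`. -/
theorem result : ∃ (R S : Green) (b : R.e) (φ : GreenHom R S), IsLoc b φ ∧ ¬ Flat (algMod φ) :=
  ⟨burnside, S, (2 : ℤ), phi, localization_not_flat⟩

end Pool.Agent.Results.MP_196a0c_al.LocalizationNotFlat
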